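import Mathlib

namespace Pool.Agent.Results.MP_3f07b9_an.Gap

open Finset

/-- The mean of a vector. -/
noncomputable def mean {n : ℕ} (x : Fin n → ℝ) : ℝ := (∑ k, x k) / n

/-- Pearson correlation. -/
noncomputable def corr {n : ℕ} (x y : Fin n → ℝ) : ℝ :=
  (∑ k, (x k - mean x) * (y k - mean y)) /
    Real.sqrt ((∑ k, (x k - mean x) ^ 2) * ∑ k, (y k - mean y) ^ 2)

/-- The correlation map on matrices (correlations of rows). -/
noncomputable def C {n : ℕ} (A : Matrix (Fin n) (Fin n) ℝ) : Matrix (Fin n) (Fin n) ℝ :=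
  fun i j => corr (A i) (A j)

/-- The elliptope. -/
def Ell {n : ℕ} (A : Matrix (Fin n) (Fin n) ℝ) : Prop := A.PosSemidef ∧ ∀ i, A i i = 1

/-- The all-ones matrix. -/
def J (n : ℕ) : Matrix (Fin n) (Fin n) ℝ := fun _ _ => 1

/-- unit diagonal, entries at most one, rows non-constant -/
def Good {n : ℕ} (A : Matrix (Fin n) (Fin n) ℝ) : Prop :=
  (∀ i, A i i = 1) ∧ (∀ i j, A i j ≤ 1) ∧ ∀ i, 0 < ∑ k, (A i k - mean (A i)) ^ 2

noncomputable def u {n : ℕ} (x : Fin n → ℝ) (k : Fin n) : ℝ :=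
  (x k - mean x) / Real.sqrt (∑ k, (x k - mean x) ^ 2)

lemma corr_eq {n : ℕ} (x y : Fin n → ℝ) : corr x y = ∑ k, u x k * u y k := by
  simp only [corr, u, div_mul_div_comm, ← sum_div]
  rw [Real.sqrt_mul (sum_nonneg fun _ _ => sq_nonneg _)]

lemma u_sq {n : ℕ} {x : Fin n → ℝ} (h : 0 < ∑ k, (x k - mean x) ^ 2) : ∑ k, u x k ^ 2 = 1 := by
  simp only [u, div_pow, ← sum_div]
  rw [Real.sq_sqrt h.le, div_self h.ne']

lemma u_sum {n : ℕ} (hn : 0 < n) (x : Fin n → ℝ) : ∑ k, u x k = 0 := by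
  have : (n : ℝ) ≠ 0 := by positivity
  simp only [u, ← sum_div, sum_sub_distrib, sum_const, card_univ, Fintype.card_fin, nsmul_eq_mul, ← mul_div_assoc,
    mean]
  rw [mul_div_cancel_left₀ _ this, sub_self, zero_div]

lemma dist_sq {n : ℕ} {x y : Fin n → ℝ} (hx : 0 < ∑ k, (x k - mean x) ^ 2)
    (hy : 0 < ∑ k, (y k - mean y) ^ 2) : ∑ k, (u x k - u y k) ^ 2 = 2 - 2 * corr x y := by
  simp only [sub_sq, sum_add_distrib, sum_sub_distrib, u_sq hx, u_sq hy, corr_eq, mul_sum, mul_assoc]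
  ring

lemma far {n : ℕ} {A : Matrix (Fin n) (Fin n) ℝ} (hA : Good A) (i : Fin n) :
    ∃ j, C A i j ≤ 1 - 1 / (8 * n) := by
  obtain ⟨h1, h2, h3⟩ := hA
  have hn : 0 < n := i.pos
  have hn' : (0 : ℝ) < n := by positivity
  by_contra hcon
  push Not at hcon
  set δ := Real.sqrt (1 / (4 * n)) with hδ
  have hδ2 : δ ^ 2 = 1 / (4 * n) := Real.sq_sqrt (by positivity)
  have hδ0 : 0 < δ := Real.sqrt_pos.2 (by positivity)
  have close : ∀ j k, |u (A i) k - u (A j) k| < δ := by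
    intro j k
    apply abs_lt_of_sq_lt_sq _ hδ0.le
    have a1 := single_le_sum (f := fun k => (u (A i) k - u (A j) k) ^ 2)
      (fun _ _ => sq_nonneg _) (mem_univ k)
    have a2 := dist_sq (h3 i) (h3 j)
    have a3 : 1 - 1 / (8 * (n : ℝ)) < corr (A i) (A j) := hcon j
    have a4 : 1 / (4 * (n : ℝ)) = 2 * (1 / (8 * n)) := by field_simp; ring
    linarith
  have osc : ∀ j k, u (A i) k - u (A i) j < 2 * δ := by
    intro j k
    have a1 : u (A j) k ≤ u (A j) j := by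
      unfold u
      apply div_le_div_of_nonneg_right _ (Real.sqrt_nonneg _)
      linarith [h1 j, h2 j k]
    linarith [abs_lt.1 (close j k), abs_lt.1 (close j j)]
  have bd : ∀ k, u (A i) k ^ 2 < 1 / n := by
    intro k
    have b1 : ∑ j, (u (A i) k - u (A i) j) < ∑ _j : Fin n, 2 * δ :=
      sum_lt_sum_of_nonempty ⟨i, mem_univ _⟩ fun j _ => osc j k
    have b2 : ∑ j, (u (A i) j - u (A i) k) < ∑ _j : Fin n, 2 * δ :=
      sum_lt_sum_of_nonempty ⟨i, mem_univ _⟩ fun j _ => osc k j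
    simp only [sum_sub_distrib, u_sum hn, sum_const, card_univ, Fintype.card_fin,
      nsmul_eq_mul] at b1 b2
    have b3 : u (A i) k < 2 * δ := by nlinarith
    have b4 : -(2 * δ) < u (A i) k := by nlinarith
    have b5 := sq_lt_sq' b4 b3
    have : (2 * δ) ^ 2 = 1 / n := by rw [mul_pow, hδ2]; field_simp; ring
    linarith
  have b6 : ∑ k, u (A i) k ^ 2 < ∑ _k : Fin n, 1 / (n : ℝ) :=
    sum_lt_sum_of_nonempty ⟨i, mem_univ _⟩ fun k _ => bd k
  rw [u_sq (h3 i)] at b6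
  simp only [sum_const, card_univ, Fintype.card_fin, nsmul_eq_mul] at b6
  rw [mul_one_div_cancel hn'.ne'] at b6
  exact lt_irrefl _ b6

lemma nonconst {n : ℕ} {x : Fin n → ℝ} {i j : Fin n} (h : x i ≠ x j) :
    0 < ∑ k, (x k - mean x) ^ 2 := by
  by_contra hcon
  have h0 : ∑ k, (x k - mean x) ^ 2 = 0 :=
    le_antisymm (not_lt.1 hcon) (sum_nonneg fun _ _ => sq_nonneg _)
  rw [sum_eq_zero_iff_of_nonneg fun _ _ => sq_nonneg _] at h0
  have a1 := pow_eq_zero_iff two_ne_zero |>.1 (h0 i (mem_univ _))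
  have a2 := pow_eq_zero_iff two_ne_zero |>.1 (h0 j (mem_univ _))
  exact h (by linarith)

lemma good_C {n : ℕ} {A : Matrix (Fin n) (Fin n) ℝ} (hA : Good A) : Good (C A) := by
  have d : ∀ i, C A i i = 1 := fun i => by
    have := dist_sq (hA.2.2 i) (hA.2.2 i)
    simp only [sub_self, ne_eq, OfNat.ofNat_ne_zero, not_false_eq_true, zero_pow,
      sum_const_zero] at this
    unfold C; linarith
  refine ⟨d, fun i j => ?_, fun i => ?_⟩
  · have := dist_sq (hA.2.2 i) (hA.2.2 j)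
    have h0 : 0 ≤ ∑ k, (u (A i) k - u (A j) k) ^ 2 := sum_nonneg fun _ _ => sq_nonneg _
    unfold C; linarith
  · obtain ⟨j, hj⟩ := far hA i
    have : (0 : ℝ) < n := by have := i.pos; positivity
    have : 0 < 1 / (8 * (n : ℝ)) := by positivity
    exact nonconst (i := i) (j := j) (by rw [d]; linarith)

lemma good_of_ell {n : ℕ} {A : Matrix (Fin n) (Fin n) ℝ} (hA : Ell A) (hJ : A ≠ J n) :
    Good A := by
  obtain ⟨hp, hd⟩ := hA
  have sym : ∀ i j, A j i = A i j := fun i j => by simpa using hp.isHermitian.apply i j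
  have q : ∀ (i j k : Fin n) (a b c : ℝ), 0 ≤ a ^ 2 + b ^ 2 + c ^ 2 + 2 * a * b * A i j +
      2 * a * c * A i k + 2 * b * c * A j k := by
    intro i j k a b c
    have := (hp.submatrix ![i, j, k]).dotProduct_mulVec_nonneg ![a, b, c]
    simp [Matrix.mulVec, dotProduct, Fin.sum_univ_three, hd, sym i j, sym i k, sym j k] at this
    nlinarith
  have le : ∀ i j, A i j ≤ 1 := fun i j => by have := q i j j 1 (-1) 0; nlinarith
  refine ⟨hd, le, fun i => ?_⟩
  by_contra hcon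
  apply hJ
  have one : ∀ j, A i j = 1 := fun j => by
    by_contra h
    exact hcon (nonconst (i := j) (j := i) (by rwa [hd]))
  ext j k
  have := q i j k (-2) 1 1
  rw [one, one] at this
  have := le j k
  show A j k = 1
  linarith

theorem result : ∀ (n : ℕ) (A : Matrix (Fin n) (Fin n) ℝ), Ell A → A ≠ J n →
    (∀ k, 1 ≤ k → ∀ i, ∃ j, 1 / (8 * (n : ℝ)) ≤ |(C^[k] A) i j - J n i j|) ∧
    ∃ c > 0, ∀ k, ∃ i j, c ≤ |(C^[k] A) i j - J n i j| := by
  intro n A hA hJ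
  have g : ∀ k, Good (C^[k] A) := fun k => by
    induction k with
    | zero => exact good_of_ell hA hJ
    | succ k ih => rw [Function.iterate_succ_apply']; exact good_C ih
  have h1 : ∀ k, 1 ≤ k → ∀ i, ∃ j, 1 / (8 * (n : ℝ)) ≤ |(C^[k] A) i j - J n i j| := by
    intro k hk i
    obtain ⟨k, rfl⟩ : ∃ m, k = m + 1 := ⟨k - 1, by omega⟩
    obtain ⟨j, hj⟩ := far (g k) i
    refine ⟨j, le_abs.2 (Or.inr ?_)⟩
    rw [Function.iterate_succ_apply']
    simp only [J]; linarith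
  refine ⟨h1, ?_⟩
  obtain ⟨i, j, hij⟩ : ∃ i j, A i j ≠ J n i j := by
    by_contra h
    push Not at h
    exact hJ (Matrix.ext h)
  have : (0 : ℝ) < n := by have := i.pos; positivity
  refine ⟨min (1 / (8 * (n : ℝ))) |A i j - J n i j|,
    lt_min (by positivity) (abs_pos.2 (sub_ne_zero.2 hij)), fun k => ?_⟩
  rcases Nat.eq_zero_or_pos k with rfl | hk
  · exact ⟨i, j, min_le_right _ _⟩
  · obtain ⟨j', h⟩ := h1 k hk i
    exact ⟨i, j', (min_le_left _ _).trans h⟩

end Pool.Agent.Results.MP_3f07b9_an.Gap
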